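import Mathlib

/-!
# Locally shallow convex c-polyhedra

A convex c-polyhedron is given by the spacelike vectors `v i` spanning the vertex rays of a
pointed polyhedral cone with nonempty interior in `ℝ^{3,1}`.

* There is a hyperbolic convex locally shallow c-polyhedron which is not globally shallow: the
  cone generated by `(±3,0,0,-2)`, `(0,±3,0,-2)`, `(0,0,±3,-2)`, an octahedron.
* Apart from a simultaneous reversal of the orientation of all the disks this cannot happen.
  In a convex locally shallow c-polyhedron (hyperbolic or not) the inversive distances of all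
  pairs of disks are positive, and all the vertex rays lie strictly on one side of a spacelike
  hyperplane. If this is the future side, the c-polyhedron is globally shallow. If it is the
  past side, then the c-polyhedron with all the orientations reversed is globally shallow, and
  any two adjacent disks have inversive distance less than one.
-/

open Set Finset

namespace Pool.Agent.Results.MP_625e57_gt.ShallowDichotomy

/-- Vectors `(x, y, z, t)` of `ℝ^{3,1}`. -/
abbrev R31 : Type := Fin 4 → ℝ

/-- The Lorentz form of `ℝ^{3,1}`. -/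
def form (u w : R31) : ℝ := u 0 * w 0 + u 1 * w 1 + u 2 * w 2 - u 3 * w 3

/-- `u` is spacelike. -/
def Spacelike (u : R31) : Prop := 0 < form u u

/-- `u` is timelike, that is, in the interior of the light cone. -/
def Timelike (u : R31) : Prop := form u u < 0

/-- The open disk `D_u` of the unit sphere given by the vector `u`. -/
def disk (u : R31) : Set (Fin 3 → ℝ) :=
  {p | p 0 ^ 2 + p 1 ^ 2 + p 2 ^ 2 = 1 ∧ 0 < u 0 * p 0 + u 1 * p 1 + u 2 * p 2 - u 3}

/-- The inversive distance of the disks `D_u` and `D_w`. -/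
noncomputable def inv (u w : R31) : ℝ :=
  -(form u w) / (Real.sqrt (form u u) * Real.sqrt (form w w))

variable {n : ℕ}

/-- The vertices `v k`, `k ∈ s`, are exactly the vertices on some face of the convex cone
generated by the vectors `v k`: some linear functional is nonnegative on the cone and vanishes
exactly at the vertices `v k` with `k ∈ s`. -/
def IsFace (v : Fin n → R31) (s : Set (Fin n)) : Prop :=
  ∃ f : R31 →ₗ[ℝ] ℝ, (∀ k, 0 ≤ f (v k)) ∧ {k | f (v k) = 0} = s

/-- The vectors `v k` are spacelike and span the distinct vertex rays of a convex polyhedral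
cone in `ℝ^{3,1}` which has nonempty interior and is pointed (the apex is a face). By
Steinitz' theorem its 1-skeleton is then a 3-connected planar graph. -/
def ConvexCPolyhedron (v : Fin n → R31) : Prop :=
  (∀ i, Spacelike (v i)) ∧ Submodule.span ℝ (Set.range v) = ⊤ ∧ IsFace v ∅ ∧
    ∀ i, IsFace v {i}

/-- The vertices `i` and `j` are joined by an edge: `i ≠ j`, and there is a face of the cone
whose vertices are exactly `i` and `j`. -/
def Adj (v : Fin n → R31) (i j : Fin n) : Prop := i ≠ j ∧ IsFace v {i, j}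

/-- The c-polyhedron is hyperbolic: each supporting hyperplane spanned by the vertices on it
(that is, the hyperplane of each facet) contains a timelike vector. -/
def Hyperbolic (v : Fin n → R31) : Prop :=
  ∀ f : R31 →ₗ[ℝ] ℝ, f ≠ 0 → (∀ k, 0 ≤ f (v k)) →
    LinearMap.ker f = Submodule.span ℝ (v '' {k | f (v k) = 0}) →
    ∃ u, f u = 0 ∧ Timelike u

/-- The condition on two disks in the definition of shallowness. -/
def ShallowPair (u w : R31) : Prop :=
  0 < inv u w ∧ (1 ≤ inv u w → disk u ∩ disk w = ∅)

/-- The c-polyhedron is locally shallow. -/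
def LocallyShallow (v : Fin n → R31) : Prop := ∀ i j, Adj v i j → ShallowPair (v i) (v j)

/-- The c-polyhedron is globally shallow. -/
def GloballyShallow (v : Fin n → R31) : Prop := ∀ i j, i ≠ j → ShallowPair (v i) (v j)

/-- All the vertex rays lie strictly on the future side of some spacelike hyperplane `τ^⊥`
(`τ` timelike and future pointing). -/
def FutureSided (v : Fin n → R31) : Prop :=
  ∃ τ : R31, Timelike τ ∧ 0 < τ 3 ∧ ∀ i, form τ (v i) < 0

/-! ### The Lorentz form -/

theorem form_add_left (u u' w : R31) : form (u + u') w = form u w + form u' w := by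
  simp only [form, Pi.add_apply]; ring

theorem form_smul_left (c : ℝ) (u w : R31) : form (c • u) w = c * form u w := by
  simp only [form, Pi.smul_apply, smul_eq_mul]; ring

theorem form_comm (u w : R31) : form u w = form w u := by
  simp only [form]; ring

theorem form_add_right (u w w' : R31) : form u (w + w') = form u w + form u w' := by
  simp only [form, Pi.add_apply]; ring

theorem form_smul_right (c : ℝ) (u w : R31) : form u (c • w) = c * form u w := by
  simp only [form, Pi.smul_apply, smul_eq_mul]; ring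

theorem form_neg_left (u w : R31) : form (-u) w = -form u w := by
  simp only [form, Pi.neg_apply]; ring

theorem form_neg_right (u w : R31) : form u (-w) = -form u w := by
  simp only [form, Pi.neg_apply]; ring

theorem form_zero_left (w : R31) : form 0 w = 0 := by
  simp [form]

theorem form_sum_left {ι : Type*} (s : Finset ι) (x : ι → R31) (w : R31) :
    form (∑ i ∈ s, x i) w = ∑ i ∈ s, form (x i) w := by
  classical
  induction s using Finset.induction_on with
  | empty => simp [form_zero_left]
  | insert a s ha ih => rw [Finset.sum_insert ha, Finset.sum_insert ha, form_add_left, ih]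

theorem form_sum_right {ι : Type*} (s : Finset ι) (x : ι → R31) (w : R31) :
    form w (∑ i ∈ s, x i) = ∑ i ∈ s, form w (x i) := by
  rw [form_comm, form_sum_left]
  exact Finset.sum_congr rfl fun i _ => form_comm _ _

/-- The Lorentz form with fixed second argument, as a linear map. -/
def formL (w : R31) : R31 →ₗ[ℝ] ℝ where
  toFun u := form u w
  map_add' u u' := form_add_left u u' w
  map_smul' c u := form_smul_left c u w

@[simp] theorem formL_apply (w u : R31) : formL w u = form u w := rfl

/-- Cauchy-Schwarz for causal vectors. -/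
theorem causal_dot {a b c t a' b' c' t' : ℝ} (h : a ^ 2 + b ^ 2 + c ^ 2 ≤ t ^ 2)
    (h' : a' ^ 2 + b' ^ 2 + c' ^ 2 ≤ t' ^ 2) (ht : 0 ≤ t) (ht' : 0 ≤ t') :
    a * a' + b * b' + c * c' ≤ t * t' := by
  have h1 : (a * a' + b * b' + c * c') ^ 2 ≤ (t * t') ^ 2 := by
    have hcs : (a * a' + b * b' + c * c') ^ 2 ≤
        (a ^ 2 + b ^ 2 + c ^ 2) * (a' ^ 2 + b' ^ 2 + c' ^ 2) := by
      nlinarith [sq_nonneg (a * b' - b * a'), sq_nonneg (a * c' - c * a'),
        sq_nonneg (b * c' - c * b')]
    have h2 : (a ^ 2 + b ^ 2 + c ^ 2) * (a' ^ 2 + b' ^ 2 + c' ^ 2) ≤ t ^ 2 * t' ^ 2 :=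
      mul_le_mul h h' (by positivity) (by positivity)
    calc _ ≤ _ := hcs
      _ ≤ _ := h2
      _ = _ := by ring
  exact le_of_abs_le (abs_le_of_sq_le_sq h1 (mul_nonneg ht ht')) |>.trans (le_refl _)

/-- A causal vector pairing negatively with a future timelike vector is future. -/
theorem future_of_neg {τ w : R31} (hτ : Timelike τ) (hτ3 : 0 < τ 3) (hw : form w w ≤ 0)
    (h : form τ w < 0) : 0 < w 3 := by
  by_contra hcon
  push Not at hcon
  unfold Timelike at hτ
  simp only [form] at *
  have := causal_dot (a := τ 0) (b := τ 1) (c := τ 2) (t := τ 3) (a' := -w 0) (b' := -w 1)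
    (c' := -w 2) (t' := -w 3) (by nlinarith) (by nlinarith) hτ3.le (by linarith)
  nlinarith

theorem eq_zero_of_causal_orth {τ e : R31} (hτ : Timelike τ) (he : form e e ≤ 0)
    (h : form τ e = 0) : e = 0 := by
  unfold Timelike at hτ
  simp only [form] at *
  have hcs : (τ 0 * e 0 + τ 1 * e 1 + τ 2 * e 2) ^ 2 ≤
      (τ 0 ^ 2 + τ 1 ^ 2 + τ 2 ^ 2) * (e 0 ^ 2 + e 1 ^ 2 + e 2 ^ 2) := by
    nlinarith [sq_nonneg (τ 0 * e 1 - τ 1 * e 0), sq_nonneg (τ 0 * e 2 - τ 2 * e 0),
      sq_nonneg (τ 1 * e 2 - τ 2 * e 1)]
  have h1 : τ 0 * e 0 + τ 1 * e 1 + τ 2 * e 2 = τ 3 * e 3 := by linarith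
  rw [h1] at hcs
  have h2 : (τ 0 ^ 2 + τ 1 ^ 2 + τ 2 ^ 2) * (e 0 ^ 2 + e 1 ^ 2 + e 2 ^ 2) ≤
      (τ 0 ^ 2 + τ 1 ^ 2 + τ 2 ^ 2) * e 3 ^ 2 :=
    mul_le_mul_of_nonneg_left (by nlinarith) (by positivity)
  have h3 : (τ 3 ^ 2 - (τ 0 ^ 2 + τ 1 ^ 2 + τ 2 ^ 2)) * e 3 ^ 2 ≤ 0 := by nlinarith
  have h4 : 0 < τ 3 ^ 2 - (τ 0 ^ 2 + τ 1 ^ 2 + τ 2 ^ 2) := by nlinarith
  have h5 : e 3 ^ 2 ≤ 0 := by
    by_contra hc
    push Not at hc
    nlinarith [mul_pos h4 hc]
  have he3 : e 3 = 0 := by
    have := sq_nonneg (e 3)
    exact pow_eq_zero_iff (two_ne_zero) |>.1 (le_antisymm h5 this)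
  have h6 : e 0 ^ 2 + e 1 ^ 2 + e 2 ^ 2 ≤ 0 := by rw [he3] at he; nlinarith
  have he0 : e 0 = 0 := by nlinarith [sq_nonneg (e 0), sq_nonneg (e 1), sq_nonneg (e 2)]
  have he1 : e 1 = 0 := by nlinarith [sq_nonneg (e 0), sq_nonneg (e 1), sq_nonneg (e 2)]
  have he2 : e 2 = 0 := by nlinarith [sq_nonneg (e 0), sq_nonneg (e 1), sq_nonneg (e 2)]
  funext i
  fin_cases i <;> simp [he0, he1, he2, he3]

theorem inv_pos_iff {u w : R31} (hu : Spacelike u) (hw : Spacelike w) :
    0 < inv u w ↔ form u w < 0 := by
  unfold inv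
  have h1 : 0 < Real.sqrt (form u u) * Real.sqrt (form w w) :=
    mul_pos (Real.sqrt_pos.2 hu) (Real.sqrt_pos.2 hw)
  rw [div_pos_iff_of_pos_right h1]
  exact neg_pos

theorem one_le_inv_iff {u w : R31} (hu : Spacelike u) (hw : Spacelike w) :
    1 ≤ inv u w ↔ form u w ≤ -(Real.sqrt (form u u) * Real.sqrt (form w w)) := by
  unfold inv
  have h1 : 0 < Real.sqrt (form u u) * Real.sqrt (form w w) :=
    mul_pos (Real.sqrt_pos.2 hu) (Real.sqrt_pos.2 hw)
  rw [le_div_iff₀ h1, one_mul]
  exact le_neg

theorem inv_neg_neg (u w : R31) : inv (-u) (-w) = inv u w := by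
  simp [inv, form_neg_left, form_neg_right]

/-- The causal vector in the span of a pair with inversive distance at least one. -/
theorem causal_comb {u w : R31} (hu : Spacelike u) (hw : Spacelike w) (h : 1 ≤ inv u w) :
    form ((Real.sqrt (form w w)) • u + (Real.sqrt (form u u)) • w)
      ((Real.sqrt (form w w)) • u + (Real.sqrt (form u u)) • w) ≤ 0 := by
  have h1 := (one_le_inv_iff hu hw).1 h
  have hu' := Real.sqrt_pos.2 hu
  have hw' := Real.sqrt_pos.2 hw
  have hu2 := Real.sq_sqrt hu.le
  have hw2 := Real.sq_sqrt hw.le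
  set a := Real.sqrt (form u u)
  set b := Real.sqrt (form w w)
  simp only [form_add_left, form_add_right, form_smul_left, form_smul_right]
  rw [form_comm w u, ← hu2, ← hw2]
  have : a * b * form u w ≤ a * b * (-(a * b)) :=
    mul_le_mul_of_nonneg_left h1 (by positivity)
  nlinarith

theorem disjoint_of_future {τ u w : R31} (hτ : Timelike τ) (hτ3 : 0 < τ 3)
    (hu : Spacelike u) (hw : Spacelike w) (h : 1 ≤ inv u w) (hτu : form τ u < 0)
    (hτw : form τ w < 0) : disk u ∩ disk w = ∅ := by
  have hc := causal_comb hu hw h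
  have hu' := Real.sqrt_pos.2 hu
  have hw' := Real.sqrt_pos.2 hw
  set a := Real.sqrt (form u u)
  set b := Real.sqrt (form w w)
  have h3 : 0 < (b • u + a • w) 3 := by
    refine future_of_neg hτ hτ3 hc ?_
    rw [form_add_right, form_smul_right, form_smul_right]
    nlinarith
  rw [Set.eq_empty_iff_forall_notMem]
  rintro p ⟨⟨hp, hpu⟩, ⟨-, hpw⟩⟩
  have h4 : 0 < b * (u 0 * p 0 + u 1 * p 1 + u 2 * p 2 - u 3) +
      a * (w 0 * p 0 + w 1 * p 1 + w 2 * p 2 - w 3) := by positivity
  have h5 := causal_dot (a := (b • u + a • w) 0) (b := (b • u + a • w) 1)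
    (c := (b • u + a • w) 2) (t := (b • u + a • w) 3) (a' := p 0) (b' := p 1) (c' := p 2)
    (t' := 1) (by simp only [form] at hc; nlinarith) (by rw [hp]; norm_num) h3.le zero_le_one
  simp only [Pi.add_apply, Pi.smul_apply, smul_eq_mul] at h5
  nlinarith

theorem exists_orth (a b c : R31) :
    ∃ e : R31, e ≠ 0 ∧ form e a = 0 ∧ form e b = 0 ∧ form e c = 0 := by
  let L : R31 →ₗ[ℝ] (Fin 3 → ℝ) := LinearMap.pi ![formL a, formL b, formL c]
  have hker : LinearMap.ker L ≠ ⊥ := by
    apply LinearMap.ker_ne_bot_of_finrank_lt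
    simp
  obtain ⟨e, he, hne⟩ := (Submodule.ne_bot_iff _).1 hker
  rw [LinearMap.mem_ker] at he
  refine ⟨e, hne, ?_, ?_, ?_⟩
  · simpa [L] using congrFun he 0
  · simpa [L] using congrFun he 1
  · simpa [L] using congrFun he 2

/-- Two disks on the past side overlap. -/
theorem inter_of_past {τ u w : R31} (hτ : Timelike τ) (hτ3 : 0 < τ 3)
    (hτu : 0 < form τ u) (hτw : 0 < form τ w) : (disk u ∩ disk w).Nonempty := by
  obtain ⟨e, hne, heu, hew, heτ⟩ := exists_orth u w τ
  have hee : 0 < form e e := by
    by_contra hc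
    push Not at hc
    exact hne (eq_zero_of_causal_orth hτ hc (by rw [form_comm]; exact heτ))
  have hτ' : 0 < -form τ τ := by unfold Timelike at hτ; linarith
  set s := Real.sqrt (-form τ τ / form e e) with hs
  have hs2 : s ^ 2 = -form τ τ / form e e := Real.sq_sqrt (by positivity)
  have hs2' : s ^ 2 * form e e = -form τ τ := by rw [hs2]; field_simp
  set m : R31 := τ + s • e with hm
  have hmm : form m m = 0 := by
    rw [hm]
    simp only [form_add_left, form_add_right, form_smul_left, form_smul_right]
    rw [form_comm τ e, heτ]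
    nlinarith
  have hτm : form τ m < 0 := by
    rw [hm, form_add_right, form_smul_right, form_comm τ e, heτ]
    unfold Timelike at hτ
    linarith
  have hm3 : 0 < m 3 := future_of_neg hτ hτ3 hmm.le hτm
  have hum : 0 < form u m := by
    rw [hm, form_add_right, form_smul_right, form_comm u e, heu, form_comm u τ]
    linarith
  have hwm : 0 < form w m := by
    rw [hm, form_add_right, form_smul_right, form_comm w e, hew, form_comm w τ]
    linarith
  refine ⟨![m 0 / m 3, m 1 / m 3, m 2 / m 3], ⟨?_, ?_⟩, ⟨?_, ?_⟩⟩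
  · simp only [form] at hmm
    simp
    field_simp
    linarith
  · have : u 0 * (m 0 / m 3) + u 1 * (m 1 / m 3) + u 2 * (m 2 / m 3) - u 3 = form u m / m 3 := by
      simp only [form]; field_simp
    simp
    have h2 := div_pos hum hm3
    rw [← this] at h2
    linarith
  · simp only [form] at hmm
    simp
    field_simp
    linarith
  · have : w 0 * (m 0 / m 3) + w 1 * (m 1 / m 3) + w 2 * (m 2 / m 3) - w 3 = form w m / m 3 := by
      simp only [form]; field_simp
    simp
    have h2 := div_pos hwm hm3
    rw [← this] at h2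
    linarith

/-! ### The local cone at a vertex -/

/-- The cone generated by the vertices in `S` and the line through `v i`. -/
def localCone (v : Fin n → R31) (i : Fin n) (S : Finset (Fin n)) :
    Submodule NNReal R31 :=
  Submodule.span NNReal (v '' (S : Set (Fin n)) ∪ {v i, -v i})

theorem mem_localCone_of_mem {v : Fin n → R31} {i : Fin n} {S : Finset (Fin n)} {k : Fin n}
    (hk : k ∈ S) : v k ∈ localCone v i S :=
  Submodule.subset_span (Or.inl ⟨k, hk, rfl⟩)

theorem self_mem_localCone (v : Fin n → R31) (i : Fin n) (S : Finset (Fin n)) :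
    v i ∈ localCone v i S := Submodule.subset_span (Or.inr (by simp))

theorem neg_mem_localCone (v : Fin n → R31) (i : Fin n) (S : Finset (Fin n)) :
    -v i ∈ localCone v i S := Submodule.subset_span (Or.inr (by simp))

theorem smul_mem_localCone {v : Fin n → R31} {i : Fin n} {S : Finset (Fin n)} {x : R31}
    (hx : x ∈ localCone v i S) {c : ℝ} (hc : 0 ≤ c) : c • x ∈ localCone v i S :=
  (localCone v i S).smul_mem ⟨c, hc⟩ hx

theorem line_mem_localCone (v : Fin n → R31) (i : Fin n) (S : Finset (Fin n)) (c : ℝ) :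
    c • v i ∈ localCone v i S := by
  rcases le_total 0 c with hc | hc
  · exact smul_mem_localCone (self_mem_localCone v i S) hc
  · have h := smul_mem_localCone (neg_mem_localCone v i S) (c := -c) (by linarith)
    rwa [smul_neg, neg_smul, neg_neg] at h

theorem exposing {v : Fin n → R31} {i : Fin n} (h : IsFace v {i}) :
    ∃ f : R31 →ₗ[ℝ] ℝ, f (v i) = 0 ∧ ∀ j, j ≠ i → 0 < f (v j) := by
  obtain ⟨f, hf, hs⟩ := h
  refine ⟨f, ?_, fun j hj => lt_of_le_of_ne (hf j) fun h0 => hj ?_⟩
  · have : i ∈ {k | f (v k) = 0} := by rw [hs]; rfl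
    exact this
  · have : j ∈ {k | f (v k) = 0} := h0.symm
    rw [hs] at this
    exact this

/-- The other vertices lie in the cone generated by the neighbours of `i` and the line
through `v i`. -/
theorem localCone_adj {v : Fin n → R31} (hv : ConvexCPolyhedron v) (i : Fin n) :
    ∃ S : Finset (Fin n), (∀ s ∈ S, Adj v i s) ∧ ∀ j, j ≠ i → v j ∈ localCone v i S := by
  classical
  obtain ⟨hsp, hspan, hpt, hext⟩ := hv
  choose f hf0 hfpos using fun i => exposing (hext i)
  -- a minimal generating set
  let P : Finset (Fin n) → Prop := fun S => i ∉ S ∧ ∀ j, j ≠ i → v j ∈ localCone v i S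
  have hP : ∃ S, P S := ⟨Finset.univ.erase i, by simp, fun j hj =>
    mem_localCone_of_mem (by simp [hj])⟩
  obtain ⟨S, ⟨hiS, hS⟩, hmin⟩ : ∃ S, P S ∧ ∀ T, P T → S.card ≤ T.card := by
    obtain ⟨S, hS⟩ := WellFounded.has_min (measure (fun S : Finset (Fin n) => S.card)).wf
      {S | P S} hP
    exact ⟨S, hS.1, fun T hT => not_lt.1 (hS.2 T hT)⟩
  refine ⟨S, fun s hs => ?_, hS⟩
  have hsi : s ≠ i := fun h => hiS (h ▸ hs)
  set T := S.erase s with hT
  -- `v s` is not in the cone of the rest
  have hnot : v s ∉ localCone v i T := by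
    intro hmem
    have hle : localCone v i S ≤ localCone v i T := by
      apply Submodule.span_le.2
      rintro x (⟨k, hk, rfl⟩ | hx)
      · by_cases hks : k = s
        · rw [hks]; exact hmem
        · exact mem_localCone_of_mem (by rw [hT]; exact Finset.mem_erase.2 ⟨hks, hk⟩)
      · exact Submodule.subset_span (Or.inr hx)
    have hPT : P T := ⟨fun h => hiS (Finset.mem_of_mem_erase h), fun j hj => hle (hS j hj)⟩
    have h1 := hmin T hPT
    have h2 : T.card < S.card := Finset.card_erase_lt_of_mem hs
    omega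
  -- project along `v i`
  have hN : 0 < form (v i) (v i) := hsp i
  let π : R31 →ₗ[ℝ] R31 := LinearMap.id - (formL ((form (v i) (v i))⁻¹ • v i)).smulRight (v i)
  have hπ : ∀ x, π x = x - form x ((form (v i) (v i))⁻¹ • v i) • v i := fun x => rfl
  have hπi : π (v i) = 0 := by
    rw [hπ, form_smul_right, inv_mul_cancel₀ hN.ne', one_smul, sub_self]
  let q : Fin n → R31 := fun k => (f i (v k))⁻¹ • π (v k)
  let A : Set R31 := convexHull ℝ (q '' (T : Set (Fin n)))
  have hTi : ∀ t ∈ T, t ≠ i := fun t ht h => hiS (h ▸ Finset.mem_of_mem_erase ht)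
  have hAsub : A ⊆ (localCone v i T : Set R31) := by
    apply convexHull_min
    · rintro _ ⟨t, ht, rfl⟩
      apply smul_mem_localCone _ (inv_nonneg.2 (hfpos i t (hTi t ht)).le)
      rw [hπ, sub_eq_add_neg, ← neg_smul]
      exact (localCone v i T).add_mem (mem_localCone_of_mem ht) (line_mem_localCone _ _ _ _)
    · intro x hx y hy a b ha hb _
      exact (localCone v i T).add_mem (smul_mem_localCone hx ha) (smul_mem_localCone hy hb)
  have hqs : q s ∉ A := by
    intro hq
    have h1 := smul_mem_localCone (hAsub hq) (hfpos i s hsi).le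
    have h2 : f i (v s) • q s = π (v s) := by
      simp only [q]
      rw [smul_smul, mul_inv_cancel₀ (hfpos i s hsi).ne', one_smul]
    rw [h2, hπ] at h1
    have h3 := (localCone v i T).add_mem h1
      (line_mem_localCone v i T (form (v s) ((form (v i) (v i))⁻¹ • v i)))
    rw [sub_add_cancel] at h3
    exact hnot h3
  have hAcl : IsClosed A :=
    (((Set.toFinite (T : Set (Fin n))).image q).isCompact_convexHull ℝ).isClosed
  obtain ⟨g, u, hgs, hgA⟩ := geometric_hahn_banach_point_closed (convex_convexHull ℝ _) hAcl hqs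
  let h : R31 →ₗ[ℝ] ℝ := g.toLinearMap ∘ₗ π - (g (q s)) • f i
  have hh : ∀ x, h x = g (π x) - g (q s) * f i x := fun x => rfl
  have hhi : h (v i) = 0 := by rw [hh, hπi, hf0, map_zero]; ring
  have hqk : ∀ k, k ≠ i → π (v k) = f i (v k) • q k := by
    intro k hk
    simp only [q]
    rw [smul_smul, mul_inv_cancel₀ (hfpos i k hk).ne', one_smul]
  have hhk : ∀ k, k ≠ i → h (v k) = f i (v k) * (g (q k) - g (q s)) := by
    intro k hk
    rw [hh, hqk k hk, map_smul, smul_eq_mul]; ring
  have hhs : h (v s) = 0 := by rw [hhk s hsi]; ring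
  have hht : ∀ t ∈ T, 0 < h (v t) := by
    intro t ht
    rw [hhk t (hTi t ht)]
    apply mul_pos (hfpos i t (hTi t ht))
    have := hgA (q t) (subset_convexHull ℝ _ ⟨t, ht, rfl⟩)
    linarith
  -- on the cone of `S`
  have hcone : ∀ x ∈ localCone v i S, 0 ≤ h x ∧
      (h x = 0 → ∃ a b : ℝ, 0 ≤ a ∧ x = a • v s + b • v i) := by
    intro x hx
    induction hx using Submodule.span_induction with
    | mem x hx =>
      rcases hx with ⟨k, hk, rfl⟩ | hx
      · by_cases hks : k = s
        · rw [hks, hhs]
          exact ⟨le_refl _, fun _ => ⟨1, 0, zero_le_one, by simp⟩⟩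
        · have := hht k (by rw [hT]; exact Finset.mem_erase.2 ⟨hks, hk⟩)
          exact ⟨this.le, fun h0 => absurd h0 this.ne'⟩
      · rcases hx with rfl | hx
        · rw [hhi]; exact ⟨le_refl _, fun _ => ⟨0, 1, le_refl _, by simp⟩⟩
        · rw [Set.mem_singleton_iff] at hx
          rw [hx, map_neg, hhi, neg_zero]
          exact ⟨le_refl _, fun _ => ⟨0, -1, le_refl _, by simp⟩⟩
    | zero => rw [map_zero]; exact ⟨le_refl _, fun _ => ⟨0, 0, le_refl _, by simp⟩⟩
    | add x y _ _ hx hy =>
      rw [map_add]
      refine ⟨add_nonneg hx.1 hy.1, fun h0 => ?_⟩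
      have hx0 : h x = 0 := by linarith [hx.1, hy.1]
      have hy0 : h y = 0 := by linarith [hx.1, hy.1]
      obtain ⟨a, b, ha, rfl⟩ := hx.2 hx0
      obtain ⟨a', b', ha', rfl⟩ := hy.2 hy0
      exact ⟨a + a', b + b', add_nonneg ha ha', by rw [add_smul, add_smul]; abel⟩
    | smul c x _ hx =>
      have hcx : c • x = (c : ℝ) • x := rfl
      rw [hcx, map_smul, smul_eq_mul]
      refine ⟨mul_nonneg c.2 hx.1, fun h0 => ?_⟩
      rcases mul_eq_zero.1 h0 with hc | hx0
      · rw [hc]; exact ⟨0, 0, le_refl _, by simp⟩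
      · obtain ⟨a, b, ha, rfl⟩ := hx.2 hx0
        exact ⟨c * a, c * b, mul_nonneg c.2 ha, by rw [smul_add, smul_smul, smul_smul]⟩
  refine ⟨hsi.symm, h, fun k => ?_, ?_⟩
  · by_cases hki : k = i
    · rw [hki, hhi]
    · exact (hcone _ (hS k hki)).1
  · ext k
    simp only [Set.mem_ofPred_eq, Set.mem_insert_iff, Set.mem_singleton_iff]
    constructor
    · intro hk0
      by_contra hcon
      push Not at hcon
      obtain ⟨hki, hks⟩ := hcon
      obtain ⟨a, b, ha, hab⟩ := (hcone _ (hS k hki)).2 hk0
      have e1 : f i (v k) = a * f i (v s) := by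
        rw [hab, map_add, map_smul, map_smul, hf0]; simp
      have e2 : (0 : ℝ) = a * f k (v s) + b * f k (v i) := by
        rw [← hf0 k]
        conv_lhs => rw [hab]
        rw [map_add, map_smul, map_smul]; simp
      have e3 : f s (v k) = b * f s (v i) := by
        rw [hab, map_add, map_smul, map_smul, hf0]; simp
      have p1 := hfpos i k hki
      have p2 := hfpos i s hsi
      have p3 := hfpos k s (Ne.symm hks)
      have p4 := hfpos k i (Ne.symm hki)
      have p5 := hfpos s k hks
      have p6 := hfpos s i hsi.symm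
      have ha0 : 0 < a := by
        by_contra hc
        push Not at hc
        nlinarith
      have hb0 : b < 0 := by
        by_contra hc
        push Not at hc
        nlinarith [mul_pos ha0 p3, mul_nonneg hc p4.le]
      nlinarith [mul_pos (neg_pos.2 hb0) p6]
    · rintro (rfl | rfl)
      · exact hhi
      · exact hhs

/-- In a convex locally shallow c-polyhedron all pairs of vertices have negative Lorentz
product. -/
theorem form_neg_of_locallyShallow {v : Fin n → R31} (hv : ConvexCPolyhedron v)
    (hl : LocallyShallow v) {i j : Fin n} (hij : i ≠ j) : form (v i) (v j) < 0 := by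
  obtain ⟨S, hSadj, hS⟩ := localCone_adj hv i
  obtain ⟨hsp, hspan, hpt, hext⟩ := hv
  choose f hf0 hfpos using fun i => exposing (hext i)
  have hfn : ∀ a b, 0 ≤ f a (v b) := by
    intro a b
    by_cases hab : b = a
    · rw [hab, hf0]
    · exact (hfpos a b hab).le
  have key : ∀ x ∈ localCone v i S, ∃ (y : R31) (μ : ℝ), x = y + μ • v i ∧
      form y (v i) ≤ 0 ∧ (form y (v i) = 0 → y = 0) ∧ 0 ≤ f j y := by
    intro x hx
    induction hx using Submodule.span_induction with
    | mem x hx =>
      rcases hx with ⟨k, hk, rfl⟩ | hx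
      · have hadj := hSadj k hk
        have hneg : form (v k) (v i) < 0 := by
          rw [form_comm]
          exact (inv_pos_iff (hsp i) (hsp k)).1 (hl i k hadj).1
        exact ⟨v k, 0, by simp, hneg.le, fun h0 => absurd h0 hneg.ne, hfn j k⟩
      · rcases hx with rfl | hx
        · exact ⟨0, 1, by simp, by simp [form_zero_left], fun _ => rfl, by simp⟩
        · rw [Set.mem_singleton_iff] at hx
          exact ⟨0, -1, by simp [hx], by simp [form_zero_left], fun _ => rfl, by simp⟩
    | zero => exact ⟨0, 0, by simp, by simp [form_zero_left], fun _ => rfl, by simp⟩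
    | add x y _ _ hx hy =>
      obtain ⟨y1, μ1, rfl, h1, h1', h1''⟩ := hx
      obtain ⟨y2, μ2, rfl, h2, h2', h2''⟩ := hy
      refine ⟨y1 + y2, μ1 + μ2, by rw [add_smul]; abel, ?_, fun h0 => ?_, ?_⟩
      · rw [form_add_left]; linarith
      · rw [form_add_left] at h0
        rw [h1' (by linarith), h2' (by linarith), add_zero]
      · rw [map_add]; linarith
    | smul c x _ hx =>
      obtain ⟨y, μ, rfl, h1, h1', h1''⟩ := hx
      refine ⟨(c : ℝ) • y, c * μ, ?_, ?_, fun h0 => ?_, ?_⟩
      · rw [smul_add, mul_smul]; rfl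
      · rw [form_smul_left]; exact mul_nonpos_of_nonneg_of_nonpos c.2 h1
      · rw [form_smul_left] at h0
        rcases mul_eq_zero.1 h0 with hc | hy
        · rw [hc, zero_smul]
        · rw [h1' hy, smul_zero]
      · rw [map_smul]; exact mul_nonneg c.2 h1''
  obtain ⟨y, μ, hy, h1, h1', h2⟩ := key _ (hS j hij.symm)
  have e1 : (0 : ℝ) = f j y + μ * f j (v i) := by
    rw [← hf0 j]
    conv_lhs => rw [hy]
    rw [map_add, map_smul, smul_eq_mul]
  have p1 := hfpos j i hij
  have hμ : μ ≤ 0 := by
    by_contra hc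
    push Not at hc
    nlinarith [mul_pos hc p1]
  have hN : 0 < form (v i) (v i) := hsp i
  have e2 : form (v i) (v j) = form y (v i) + μ * form (v i) (v i) := by
    rw [form_comm]
    conv_lhs => rw [hy]
    rw [form_add_left, form_smul_left]
  rw [e2]
  rcases h1.lt_or_eq with h | h
  · nlinarith
  · rcases hμ.lt_or_eq with h' | h'
    · rw [h]; nlinarith [mul_pos (neg_pos.2 h') hN]
    · exfalso
      have hz : v j = 0 := by rw [hy, h1' h, h', zero_smul, add_zero]
      have := hsp j
      rw [Spacelike, hz, form_zero_left] at this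
      exact lt_irrefl _ this

/-! ### The time orientation -/

/-- A Perron-Frobenius vector for the Gram matrix. -/
theorem exists_perron {v : Fin n → R31} (hspan : Submodule.span ℝ (Set.range v) = ⊤)
    (hneg : ∀ i j, i ≠ j → form (v i) (v j) < 0) :
    ∃ p : R31, Timelike p ∧ ∀ j, form p (v j) < 0 := by
  classical
  -- the quadratic form
  let q : (Fin n → ℝ) → R31 := fun c => ∑ i, c i • v i
  let Q : (Fin n → ℝ) → ℝ := fun c => form (q c) (q c)
  let N : (Fin n → ℝ) → ℝ := fun c => ∑ i, c i ^ 2
  have hq : Continuous q := by fun_prop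
  have hQ : Continuous Q := by
    simp only [Q, form]
    have h := fun k : Fin 4 => (continuous_apply k).comp hq
    have h0 := h 0
    have h1 := h 1
    have h2 := h 2
    have h3 := h 3
    simp only [Function.comp_def] at h0 h1 h2 h3
    fun_prop
  have hN : Continuous N := by fun_prop
  have hQsmul : ∀ (a : ℝ) c, Q (a • c) = a ^ 2 * Q c := by
    intro a c
    have : q (a • c) = a • q c := by
      simp only [q, Finset.smul_sum, Pi.smul_apply, smul_eq_mul, mul_smul]
    simp only [Q, this, form_smul_left, form_smul_right]; ring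
  have hNsmul : ∀ (a : ℝ) c, N (a • c) = a ^ 2 * N c := by
    intro a c
    simp only [N, Pi.smul_apply, smul_eq_mul, mul_pow, Finset.mul_sum]
  have hN0 : ∀ c, 0 ≤ N c := fun c => Finset.sum_nonneg fun i _ => sq_nonneg _
  have hNpos : ∀ c, c ≠ 0 → 0 < N c := by
    intro c hc
    refine lt_of_le_of_ne (hN0 c) fun h => hc ?_
    funext i
    have := (Finset.sum_eq_zero_iff_of_nonneg fun i _ => sq_nonneg (c i)).1 h.symm i
      (Finset.mem_univ i)
    simpa using this
  -- a timelike combination
  obtain ⟨d, hd⟩ : ∃ d, Q d < 0 := by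
    have hmem : (![0, 0, 0, 1] : R31) ∈ Submodule.span ℝ (Set.range v) := by
      rw [hspan]; exact Submodule.mem_top
    obtain ⟨d, hd⟩ := (Submodule.mem_span_range_iff_exists_fun ℝ).1 hmem
    refine ⟨d, ?_⟩
    simp only [Q, q, hd]
    simp [form]
  have hd0 : d ≠ 0 := by
    rintro rfl
    simp [Q, q, form] at hd
  -- the sphere is compact
  have hK : IsCompact {c : Fin n → ℝ | N c = 1} := by
    apply Metric.isCompact_of_isClosed_isBounded
    · exact isClosed_eq hN continuous_const
    · rw [isBounded_iff_forall_norm_le]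
      refine ⟨1, fun c hc => ?_⟩
      rw [pi_norm_le_iff_of_nonneg zero_le_one]
      intro i
      have h1 : c i ^ 2 ≤ N c :=
        Finset.single_le_sum (f := fun i => c i ^ 2) (fun i _ => sq_nonneg _) (Finset.mem_univ i)
      rw [show N c = 1 from hc] at h1
      rw [Real.norm_eq_abs]
      exact abs_le_one_iff_mul_self_le_one.2 (by nlinarith)
  have hNd := hNpos d hd0
  have hne : {c : Fin n → ℝ | N c = 1}.Nonempty := by
    refine ⟨(Real.sqrt (N d))⁻¹ • d, ?_⟩
    show N _ = 1
    rw [hNsmul, inv_pow, Real.sq_sqrt hNd.le, inv_mul_cancel₀ hNd.ne']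
  obtain ⟨c, hc, hmin⟩ := hK.exists_isMinOn hne hQ.continuousOn
  have hc1 : N c = 1 := hc
  have hall : ∀ x, Q c * N x ≤ Q x := by
    intro x
    by_cases hx : x = 0
    · subst hx; simp [N, Q, q, form]
    · have hNx := hNpos x hx
      have h1 : Q c ≤ Q ((Real.sqrt (N x))⁻¹ • x) := by
        apply hmin
        show N _ = 1
        rw [hNsmul, inv_pow, Real.sq_sqrt hNx.le, inv_mul_cancel₀ hNx.ne']
      rw [hQsmul, inv_pow, Real.sq_sqrt hNx.le] at h1
      have h2 := mul_le_mul_of_nonneg_right h1 hNx.le
      rwa [mul_comm (N x)⁻¹, mul_assoc, inv_mul_cancel₀ hNx.ne', mul_one] at h2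
  -- pass to absolute values
  set m := Q c with hm
  let a : Fin n → ℝ := fun i => |c i|
  have hQexp : ∀ x : Fin n → ℝ, Q x = ∑ i, ∑ j, x i * x j * form (v i) (v j) := by
    intro x
    simp only [Q, q, form_sum_left]
    refine Finset.sum_congr rfl fun i _ => ?_
    rw [form_sum_right]
    refine Finset.sum_congr rfl fun j _ => ?_
    rw [form_smul_left, form_smul_right]; ring
  have hNa : N a = 1 := by
    rw [← hc1]; simp only [N, a, sq_abs]
  have hQa : Q a ≤ m := by
    rw [hm, hQexp, hQexp]
    refine Finset.sum_le_sum fun i _ => Finset.sum_le_sum fun j _ => ?_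
    by_cases hij : i = j
    · subst hij; simp only [a, abs_mul_abs_self]; exact le_refl _
    · have h1 : c i * c j ≤ |c i| * |c j| := by rw [← abs_mul]; exact le_abs_self _
      exact mul_le_mul_of_nonpos_right h1 (hneg i j hij).le
  have hQa' : Q a = m := le_antisymm hQa (by have := hall a; rwa [hNa, mul_one] at this)
  -- the eigenvector equation
  have heig : ∀ j, form (q a) (v j) = m * a j := by
    intro j
    have hvar : ∀ ε : ℝ, 0 ≤ 2 * ε * (form (q a) (v j) - m * a j) +
        ε ^ 2 * (form (v j) (v j) - m) := by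
      intro ε
      have h1 := hall (a + ε • Pi.single j 1)
      have hq1 : q (a + ε • Pi.single j 1) = q a + ε • v j := by
        simp only [q, Pi.add_apply, Pi.smul_apply, smul_eq_mul, add_smul,
          Finset.sum_add_distrib]
        congr 1
        rw [Finset.sum_eq_single j]
        · simp
        · intro b _ hb; simp [Pi.single_eq_of_ne hb]
        · simp
      have hN1 : N (a + ε • Pi.single j 1) = N a + 2 * ε * a j + ε ^ 2 := by
        simp only [N, Pi.add_apply, Pi.smul_apply, smul_eq_mul]
        have : ∀ i, (a i + ε * (Pi.single j (1 : ℝ) : Fin n → ℝ) i) ^ 2 =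
            a i ^ 2 + (2 * ε * a i + ε ^ 2) * (Pi.single j (1 : ℝ) : Fin n → ℝ) i := by
          intro i
          by_cases hij : i = j
          · subst hij; simp only [Pi.single_eq_same]; ring
          · simp only [Pi.single_eq_of_ne hij]; ring
        simp only [this, Finset.sum_add_distrib]
        rw [Finset.sum_eq_single (s := Finset.univ) (f := fun i => (2 * ε * a i + ε ^ 2) *
          (Pi.single j (1 : ℝ) : Fin n → ℝ) i) j]
        · simp only [Pi.single_eq_same]; ring
        · intro b _ hb; simp [Pi.single_eq_of_ne hb]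
        · simp
      have hQ1 : Q (a + ε • Pi.single j 1) = Q a + 2 * ε * form (q a) (v j) +
          ε ^ 2 * form (v j) (v j) := by
        simp only [Q, hq1, form_add_left, form_add_right, form_smul_left, form_smul_right]
        rw [form_comm (v j) (q a)]; ring
      rw [hN1, hQ1, hNa, hQa'] at h1
      nlinarith
    by_contra hcon
    set B := form (q a) (v j) - m * a j with hB
    have hB0 : B ≠ 0 := fun h => hcon (by linarith)
    set D := form (v j) (v j) - m with hD
    have h1 := hvar (-B / (|D| + 1))
    have hD1 : 0 < |D| + 1 := by positivity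
    have h2 : 2 * (-B / (|D| + 1)) * B + (-B / (|D| + 1)) ^ 2 * D < 0 := by
      have h3 : 2 * (-B / (|D| + 1)) * B + (-B / (|D| + 1)) ^ 2 * D =
          B ^ 2 / (|D| + 1) ^ 2 * (D - 2 * (|D| + 1)) := by
        field_simp; ring
      rw [h3]
      apply mul_neg_of_pos_of_neg (by positivity)
      have := le_abs_self D
      have := abs_nonneg D
      linarith
    linarith
  -- positivity
  have ha0 : ∀ j, 0 ≤ a j := fun j => abs_nonneg _
  have hapos : ∀ j, 0 < a j := by
    intro j
    refine lt_of_le_of_ne (ha0 j) fun h => ?_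
    have h1 := heig j
    rw [← h, mul_zero] at h1
    have h2 : ∑ i, a i * form (v i) (v j) = 0 := by
      rw [← h1]
      simp only [q, form_sum_left, form_smul_left]
    have h3 : ∀ i ∈ Finset.univ, 0 ≤ -(a i * form (v i) (v j)) := by
      intro i _
      by_cases hij : i = j
      · rw [hij, ← h]; simp
      · have := mul_nonpos_of_nonneg_of_nonpos (ha0 i) (hneg i j hij).le
        linarith
    have h4 : ∑ i, -(a i * form (v i) (v j)) = 0 := by
      rw [Finset.sum_neg_distrib, h2, neg_zero]
    have h5 := (Finset.sum_eq_zero_iff_of_nonneg h3).1 h4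
    have h6 : ∀ i, a i = 0 := by
      intro i
      by_cases hij : i = j
      · rw [hij, ← h]
      · have := h5 i (Finset.mem_univ i)
        rw [neg_eq_zero] at this
        exact (mul_eq_zero.1 this).resolve_right (hneg i j hij).ne
    have h7 : N a = 0 := by simp [N, h6]
    rw [hNa] at h7
    exact one_ne_zero h7
  have hm0 : m < 0 := by
    have h1 := hall d
    by_contra hcon
    push Not at hcon
    have := mul_nonneg hcon hNd.le
    linarith
  refine ⟨q a, ?_, fun j => ?_⟩
  · show Q a < 0
    rw [hQa']; exact hm0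
  · rw [heig j]; exact mul_neg_of_neg_of_pos hm0 (hapos j)

theorem time3_ne_zero {p : R31} (hp : Timelike p) : p 3 ≠ 0 := by
  intro h
  unfold Timelike at hp
  simp only [form] at hp
  rw [h] at hp
  nlinarith [sq_nonneg (p 0), sq_nonneg (p 1), sq_nonneg (p 2)]

theorem neg_timelike {p : R31} (hp : Timelike p) : Timelike (-p) := by
  unfold Timelike
  rw [form_neg_left, form_neg_right, neg_neg]
  exact hp

theorem sided {v : Fin n → R31} (hspan : Submodule.span ℝ (Set.range v) = ⊤)
    (hneg : ∀ i j, i ≠ j → form (v i) (v j) < 0) : FutureSided v ∨ FutureSided (-v) := by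
  obtain ⟨p, hp, hpv⟩ := exists_perron hspan hneg
  rcases lt_or_gt_of_ne (time3_ne_zero hp) with h | h
  · refine Or.inr ⟨-p, neg_timelike hp, by simpa using h, fun i => ?_⟩
    rw [Pi.neg_apply, form_neg_left, form_neg_right, neg_neg]
    exact hpv i
  · exact Or.inl ⟨p, hp, h, hpv⟩

theorem spacelike_neg {u : R31} (hu : Spacelike u) : Spacelike (-u) := by
  unfold Spacelike
  rw [form_neg_left, form_neg_right, neg_neg]
  exact hu

/-! ### The counterexample -/

/-- Six vectors generating a cone over an octahedron. -/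
def octa : Fin 6 → R31 :=
  ![![3, 0, 0, -2], ![-3, 0, 0, -2], ![0, 3, 0, -2], ![0, -3, 0, -2], ![0, 0, 3, -2],
    ![0, 0, -3, -2]]

/-- The linear functional with given coefficients. -/
def func (a b c d : ℝ) : R31 →ₗ[ℝ] ℝ where
  toFun u := a * u 0 + b * u 1 + c * u 2 + d * u 3
  map_add' u w := by simp only [Pi.add_apply]; ring
  map_smul' r u := by simp only [Pi.smul_apply, smul_eq_mul, RingHom.id_apply]; ring

theorem octa_spacelike (i : Fin 6) : Spacelike (octa i) := by
  unfold Spacelike form octa
  fin_cases i <;> simp <;> norm_num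

theorem octa_span : Submodule.span ℝ (Set.range octa) = ⊤ := by
  rw [eq_top_iff]
  intro x _
  rw [Submodule.mem_span_range_iff_exists_fun]
  refine ⟨![x 0 / 6 - x 3 / 4, -x 0 / 6 - x 3 / 4, x 1 / 6, -x 1 / 6, x 2 / 6, -x 2 / 6], ?_⟩
  funext k
  simp only [Fin.sum_univ_succ, octa]
  fin_cases k <;> simp <;> ring

theorem octa_empty : IsFace octa ∅ := by
  refine ⟨func 0 0 0 (-1), fun k => ?_, ?_⟩
  · fin_cases k <;> simp [octa, func]
  · ext k
    fin_cases k <;> simp [octa, func]

theorem octa_vertex (i : Fin 6) : IsFace octa {i} := by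
  fin_cases i
  · refine ⟨func (-2) 0 0 (-3), fun k => ?_, ?_⟩
    · fin_cases k <;> simp [octa, func] <;> norm_num
    · ext k
      fin_cases k <;> simp [octa, func] <;> norm_num
  · refine ⟨func 2 0 0 (-3), fun k => ?_, ?_⟩
    · fin_cases k <;> simp [octa, func] <;> norm_num
    · ext k
      fin_cases k <;> simp [octa, func] <;> norm_num
  · refine ⟨func 0 (-2) 0 (-3), fun k => ?_, ?_⟩
    · fin_cases k <;> simp [octa, func] <;> norm_num
    · ext k
      fin_cases k <;> simp [octa, func] <;> norm_num
  · refine ⟨func 0 2 0 (-3), fun k => ?_, ?_⟩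
    · fin_cases k <;> simp [octa, func] <;> norm_num
    · ext k
      fin_cases k <;> simp [octa, func] <;> norm_num
  · refine ⟨func 0 0 (-2) (-3), fun k => ?_, ?_⟩
    · fin_cases k <;> simp [octa, func] <;> norm_num
    · ext k
      fin_cases k <;> simp [octa, func] <;> norm_num
  · refine ⟨func 0 0 2 (-3), fun k => ?_, ?_⟩
    · fin_cases k <;> simp [octa, func] <;> norm_num
    · ext k
      fin_cases k <;> simp [octa, func] <;> norm_num

theorem octa_norm (i : Fin 6) : form (octa i) (octa i) = 5 := by
  fin_cases i <;> simp [octa, form] <;> norm_num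

theorem octa_form (i j : Fin 6) : form (octa i) (octa j) =
    if i = j then 5 else if i.val / 2 = j.val / 2 then -13 else -4 := by
  fin_cases i <;> fin_cases j <;> simp [octa, form] <;> norm_num

theorem octa_inv (i j : Fin 6) : inv (octa i) (octa j) = -(form (octa i) (octa j)) / 5 := by
  rw [inv, octa_norm, octa_norm, Real.mul_self_sqrt (by norm_num)]

theorem octa_not_adj {i j : Fin 6} (hij : i ≠ j) (h : i.val / 2 = j.val / 2) :
    ¬ IsFace octa {i, j} := by
  rintro ⟨f, hf, hs⟩
  have hmem : ∀ k, f (octa k) = 0 → k = i ∨ k = j := by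
    intro k hk
    have : k ∈ {k | f (octa k) = 0} := hk
    rw [hs] at this
    exact this
  have hi : f (octa i) = 0 := by
    have : i ∈ {k | f (octa k) = 0} := by rw [hs]; simp
    exact this
  have hj : f (octa j) = 0 := by
    have : j ∈ {k | f (octa k) = 0} := by rw [hs]; simp
    exact this
  have h1 : f (octa 0) + f (octa 1) = f (octa 2) + f (octa 3) := by
    rw [← map_add, ← map_add]
    congr 1
    funext k
    fin_cases k <;> simp [octa]
  have h2 : f (octa 2) + f (octa 3) = f (octa 4) + f (octa 5) := by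
    rw [← map_add, ← map_add]
    congr 1
    funext k
    fin_cases k <;> simp [octa]
  have p0 := hf 0
  have p1 := hf 1
  have p2 := hf 2
  have p3 := hf 3
  have p4 := hf 4
  have p5 := hf 5
  have hcase : (i.val < 2 ∧ j.val < 2 ∧ f (octa 2) = 0) ∨
      (2 ≤ i.val ∧ 2 ≤ j.val ∧ f (octa 0) = 0) := by
    fin_cases i <;> fin_cases j <;> simp at hij h hi hj ⊢ <;> linarith
  rcases hcase with ⟨a, b, c⟩ | ⟨a, b, c⟩
  · rcases hmem 2 c with rfl | rfl
    · exact absurd a (by decide)
    · exact absurd b (by decide)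
  · rcases hmem 0 c with rfl | rfl
    · exact absurd a (by decide)
    · exact absurd b (by decide)

theorem octa_locallyShallow : LocallyShallow octa := by
  rintro i j ⟨hij, hface⟩
  have hne : i.val / 2 ≠ j.val / 2 := fun h => octa_not_adj hij h hface
  have hinv : inv (octa i) (octa j) = 4 / 5 := by
    rw [octa_inv, octa_form, if_neg hij, if_neg hne]; norm_num
  refine ⟨by rw [hinv]; norm_num, fun h => ?_⟩
  rw [hinv] at h
  norm_num at h

theorem octa_not_globallyShallow : ¬ GloballyShallow octa := by
  intro h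
  have h1 := h 0 1 (by decide)
  have hinv : inv (octa 0) (octa 1) = 13 / 5 := by
    rw [octa_inv, octa_form]; norm_num
  have h2 := h1.2 (by rw [hinv]; norm_num)
  have h3 : (![0, 1, 0] : Fin 3 → ℝ) ∈ disk (octa 0) ∩ disk (octa 1) := by
    refine ⟨⟨?_, ?_⟩, ⟨?_, ?_⟩⟩ <;> simp [octa]
  rw [h2] at h3
  exact h3

theorem func_of (f : R31 →ₗ[ℝ] ℝ) : ∃ a b c d : ℝ,
    ∀ u, f u = a * u 0 + b * u 1 + c * u 2 + d * u 3 := by
  refine ⟨f (Pi.single 0 1), f (Pi.single 1 1), f (Pi.single 2 1), f (Pi.single 3 1),
    fun u => ?_⟩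
  rw [LinearMap.pi_apply_eq_sum_univ f u]
  simp only [Fin.sum_univ_four, smul_eq_mul]
  have : ∀ k : Fin 4, (fun j => if k = j then (1 : ℝ) else 0) = Pi.single k 1 := by
    intro k
    funext j
    by_cases hkj : k = j
    · subst hkj; simp
    · rw [Pi.single_eq_of_ne (Ne.symm hkj), if_neg hkj]
  rw [this, this, this, this]
  ring

theorem octa_hyperbolic : Hyperbolic octa := by
  intro f hf0 hf hker
  obtain ⟨a, b, c, d, hfu⟩ := func_of f
  have p0 := hf 0
  have p1 := hf 1
  have p2 := hf 2
  have p3 := hf 3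
  have p4 := hf 4
  have p5 := hf 5
  have q0 : f (octa 0) = 3 * a - 2 * d := by rw [hfu]; simp [octa]; ring
  have q1 : f (octa 1) = -3 * a - 2 * d := by rw [hfu]; simp [octa]; ring
  have q2 : f (octa 2) = 3 * b - 2 * d := by rw [hfu]; simp [octa]; ring
  have q3 : f (octa 3) = -3 * b - 2 * d := by rw [hfu]; simp [octa]; ring
  have q4 : f (octa 4) = 3 * c - 2 * d := by rw [hfu]; simp [octa]; ring
  have q5 : f (octa 5) = -3 * c - 2 * d := by rw [hfu]; simp [octa]; ring
  rw [q0] at p0
  rw [q1] at p1
  rw [q2] at p2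
  rw [q3] at p3
  rw [q4] at p4
  rw [q5] at p5
  have hd : d < 0 := by
    by_contra hd
    push Not at hd
    apply hf0
    have hd0 : d = 0 := by linarith
    have ha0 : a = 0 := by linarith
    have hb0 : b = 0 := by linarith
    have hc0 : c = 0 := by linarith
    refine LinearMap.ext fun u => ?_
    rw [hfu, ha0, hb0, hc0, hd0]
    simp
  -- a coordinate which vanishes on the zero set vanishes on the kernel
  have hcoord : ∀ k : Fin 4, (∀ j, f (octa j) = 0 → octa j k = 0) →
      ∀ u, f u = 0 → u k = 0 := by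
    intro k hk u hu
    have hmem : u ∈ LinearMap.ker f := hu
    rw [hker] at hmem
    have hle : Submodule.span ℝ (octa '' {k | f (octa k) = 0}) ≤
        LinearMap.ker (LinearMap.proj (R := ℝ) (φ := fun _ : Fin 4 => ℝ) k) := by
      apply Submodule.span_le.2
      rintro _ ⟨j, hj, rfl⟩
      exact hk j hj
    exact hle hmem
  have ha : a ^ 2 = 4 / 9 * d ^ 2 := by
    by_contra hne
    have h0 : 3 * a - 2 * d ≠ 0 := by
      intro h; apply hne
      have : a = 2 / 3 * d := by linarith
      rw [this]; ring
    have h1 : -3 * a - 2 * d ≠ 0 := by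
      intro h; apply hne
      have : a = -(2 / 3) * d := by linarith
      rw [this]; ring
    have h2 := hcoord 0 (by
      intro j hj
      fin_cases j
      · exact absurd (q0 ▸ hj) h0
      · exact absurd (q1 ▸ hj) h1
      all_goals simp [octa]) ![d, 0, 0, -a] (by rw [hfu]; simp; ring)
    simp at h2
    exact hd.ne h2
  have hb : b ^ 2 = 4 / 9 * d ^ 2 := by
    by_contra hne
    have h0 : 3 * b - 2 * d ≠ 0 := by
      intro h; apply hne
      have : b = 2 / 3 * d := by linarith
      rw [this]; ring
    have h1 : -3 * b - 2 * d ≠ 0 := by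
      intro h; apply hne
      have : b = -(2 / 3) * d := by linarith
      rw [this]; ring
    have h2 := hcoord 1 (by
      intro j hj
      fin_cases j
      · simp [octa]
      · simp [octa]
      · exact absurd (q2 ▸ hj) h0
      · exact absurd (q3 ▸ hj) h1
      all_goals simp [octa]) ![0, d, 0, -b] (by rw [hfu]; simp; ring)
    simp at h2
    exact hd.ne h2
  have hc : c ^ 2 = 4 / 9 * d ^ 2 := by
    by_contra hne
    have h0 : 3 * c - 2 * d ≠ 0 := by
      intro h; apply hne
      have : c = 2 / 3 * d := by linarith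
      rw [this]; ring
    have h1 : -3 * c - 2 * d ≠ 0 := by
      intro h; apply hne
      have : c = -(2 / 3) * d := by linarith
      rw [this]; ring
    have h2 := hcoord 2 (by
      intro j hj
      fin_cases j
      · simp [octa]
      · simp [octa]
      · simp [octa]
      · simp [octa]
      · exact absurd (q4 ▸ hj) h0
      · exact absurd (q5 ▸ hj) h1) ![0, 0, d, -c] (by rw [hfu]; simp; ring)
    simp at h2
    exact hd.ne h2
  refine ⟨![a, b, c, -(4 / 3) * d], ?_, ?_⟩
  · rw [hfu]
    simp
    nlinarith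
  · unfold Timelike form
    simp
    nlinarith [mul_pos (neg_pos.2 hd) (neg_pos.2 hd)]

theorem octa_convex : ConvexCPolyhedron octa :=
  ⟨octa_spacelike, octa_span, octa_empty, octa_vertex⟩

/-- There is a hyperbolic convex locally shallow c-polyhedron which is not globally shallow.
Moreover, for every convex locally shallow c-polyhedron: all inversive distances are positive;
all the vertex rays are on the future side of a spacelike hyperplane, or all are on the past
side of one; in the first case the c-polyhedron is globally shallow; in the second case it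
becomes globally shallow when the orientations of all the disks are reversed, and all pairs of
adjacent disks have inversive distance less than `1`. -/
theorem result :
    (∃ (n : ℕ) (v : Fin n → R31), ConvexCPolyhedron v ∧ Hyperbolic v ∧ LocallyShallow v ∧
      ¬ GloballyShallow v) ∧
    ∀ (n : ℕ) (v : Fin n → R31), ConvexCPolyhedron v → LocallyShallow v →
      (∀ i j, i ≠ j → 0 < inv (v i) (v j)) ∧
      (FutureSided v ∨ FutureSided (-v)) ∧
      (FutureSided v → GloballyShallow v) ∧
      (FutureSided (-v) → GloballyShallow (-v) ∧ ∀ i j, Adj v i j → inv (v i) (v j) < 1) := by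
  refine ⟨⟨6, octa, octa_convex, octa_hyperbolic, octa_locallyShallow,
    octa_not_globallyShallow⟩, fun n v hv hl => ?_⟩
  have hneg : ∀ i j, i ≠ j → form (v i) (v j) < 0 := fun i j hij =>
    form_neg_of_locallyShallow hv hl hij
  have hpos : ∀ i j, i ≠ j → 0 < inv (v i) (v j) := fun i j hij =>
    (inv_pos_iff (hv.1 i) (hv.1 j)).2 (hneg i j hij)
  refine ⟨hpos, sided hv.2.1 hneg, ?_, ?_⟩
  · rintro ⟨τ, hτ, hτ3, hτv⟩ i j hij
    exact ⟨hpos i j hij, fun h => disjoint_of_future hτ hτ3 (hv.1 i) (hv.1 j) h (hτv i) (hτv j)⟩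
  · rintro ⟨τ, hτ, hτ3, hτv⟩
    refine ⟨fun i j hij => ?_, fun i j hadj => ?_⟩
    · rw [Pi.neg_apply, Pi.neg_apply]
      refine ⟨by rw [inv_neg_neg]; exact hpos i j hij, fun h => ?_⟩
      exact disjoint_of_future hτ hτ3 (spacelike_neg (hv.1 i)) (spacelike_neg (hv.1 j)) h
        (hτv i) (hτv j)
    · by_contra hcon
      push Not at hcon
      have h1 := (hl i j hadj).2 hcon
      have h2 : ∀ k, 0 < form τ (v k) := by
        intro k
        have := hτv k
        rw [Pi.neg_apply, form_neg_right] at this
        linarith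
      have h3 := inter_of_past hτ hτ3 (h2 i) (h2 j)
      rw [h1] at h3
      exact Set.not_nonempty_empty h3

end Pool.Agent.Results.MP_625e57_gt.ShallowDichotomy
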